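import Mathlib

set_option autoImplicit false

/-!
# Distances on `L²` for a nonarchimedean field `L`, and maps given by binary forms
-/

namespace Pool.Agent.H892.PGR

open MvPolynomial

variable {L : Type*} [Field L] (w : AbsoluteValue L ℝ)

/-- bracket -/
def br (u v : Fin 2 → L) : L := u 0 * v 1 - u 1 * v 0

/-- max norm -/
noncomputable def nm (u : Fin 2 → L) : ℝ := max (w (u 0)) (w (u 1))

/-- distance -/
noncomputable def dL (u v : Fin 2 → L) : ℝ := w (br u v) / (nm w u * nm w v)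

lemma nm_pos {u : Fin 2 → L} (hu : u ≠ 0) : 0 < nm w u := by
  unfold nm
  by_contra h
  push Not at h
  have h0 : w (u 0) = 0 := le_antisymm ((le_max_left _ _).trans h) (w.nonneg _)
  have h1 : w (u 1) = 0 := le_antisymm ((le_max_right _ _).trans h) (w.nonneg _)
  apply hu
  ext i
  fin_cases i
  · exact (w.eq_zero).mp h0
  · exact (w.eq_zero).mp h1

lemma nm_smul (c : L) (u : Fin 2 → L) : nm w (c • u) = w c * nm w u := by
  unfold nm
  simp only [Pi.smul_apply, smul_eq_mul, map_mul]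
  rw [mul_max_of_nonneg _ _ (w.nonneg c)]

lemma br_smul (c d : L) (u v : Fin 2 → L) : br (c • u) (d • v) = c * d * br u v := by
  unfold br
  simp only [Pi.smul_apply, smul_eq_mul]
  ring

lemma dL_smul {c d : L} (hc : c ≠ 0) (hd : d ≠ 0) (u v : Fin 2 → L) :
    dL w (c • u) (d • v) = dL w u v := by
  unfold dL
  rw [br_smul, nm_smul, nm_smul, map_mul, map_mul]
  have h1 : 0 < w c := w.pos hc
  have h2 : 0 < w d := w.pos hd
  rw [show w c * nm w u * (w d * nm w v) = (w c * w d) * (nm w u * nm w v) by ring,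
    mul_div_mul_left _ _ (by positivity)]

variable (hna : ∀ x y : L, w (x + y) ≤ max (w x) (w y))

include hna in
lemma dL_ultra {u v z : Fin 2 → L} (hu : u ≠ 0) (hv : v ≠ 0) (hz : z ≠ 0) :
    dL w u z ≤ max (dL w u v) (dL w v z) := by
  have hu' := nm_pos w hu
  have hv' := nm_pos w hv
  have hz' := nm_pos w hz
  have key : ∀ i : Fin 2, w (br u z) * w (v i) ≤
      max (w (br u v) * nm w z) (w (br v z) * nm w u) := by
    intro i
    have h1 : br u z * v i = br u v * z i + br v z * u i := by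
      unfold br
      fin_cases i
      · simp; ring
      · simp; ring
    rw [← map_mul, h1]
    refine (hna _ _).trans (max_le_max ?_ ?_)
    · rw [map_mul]
      apply mul_le_mul_of_nonneg_left _ (w.nonneg _)
      fin_cases i
      · exact le_max_left _ _
      · exact le_max_right _ _
    · rw [map_mul]
      apply mul_le_mul_of_nonneg_left _ (w.nonneg _)
      fin_cases i
      · exact le_max_left _ _
      · exact le_max_right _ _
  have key2 : w (br u z) * nm w v ≤ max (w (br u v) * nm w z) (w (br v z) * nm w u) := by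
    have : w (br u z) * nm w v = max (w (br u z) * w (v 0)) (w (br u z) * w (v 1)) := by
      unfold nm
      rw [mul_max_of_nonneg _ _ (w.nonneg _)]
    rw [this]
    exact max_le (key 0) (key 1)
  have e1 : dL w u z = (w (br u z) * nm w v) / (nm w u * nm w v * nm w z) := by
    unfold dL; field_simp
  have e2 : dL w u v = (w (br u v) * nm w z) / (nm w u * nm w v * nm w z) := by
    unfold dL; field_simp
  have e3 : dL w v z = (w (br v z) * nm w u) / (nm w u * nm w v * nm w z) := by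
    unfold dL; field_simp
  rw [e1, e2, e3]
  have hpos : 0 < nm w u * nm w v * nm w z := by positivity
  rw [div_le_iff₀ hpos]
  rcases le_max_iff.mp key2 with h | h
  · refine h.trans ?_
    have := le_max_left ((w (br u v) * nm w z) / (nm w u * nm w v * nm w z))
      ((w (br v z) * nm w u) / (nm w u * nm w v * nm w z))
    rw [div_le_iff₀ hpos] at this
    exact this
  · refine h.trans ?_
    have := le_max_right ((w (br u v) * nm w z) / (nm w u * nm w v * nm w z))
      ((w (br v z) * nm w u) / (nm w u * nm w v * nm w z))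
    rw [div_le_iff₀ hpos] at this
    exact this

include hna in
lemma sum_le {ι : Type*} (s : Finset ι) (f : ι → L) {B : ℝ} (hB : 0 ≤ B)
    (h : ∀ i ∈ s, w (f i) ≤ B) : w (∑ i ∈ s, f i) ≤ B := by
  classical
  induction s using Finset.induction_on with
  | empty => simpa using hB
  | insert a s ha ih =>
    rw [Finset.sum_insert ha]
    refine (hna _ _).trans (max_le (h a (Finset.mem_insert_self a s)) ?_)
    exact ih (fun i hi => h i (Finset.mem_insert_of_mem hi))

include hna in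
lemma pow_sub_le {x y : L} (hx : w x ≤ 1) (hy : w y ≤ 1) (r : ℕ) :
    w (x ^ r - y ^ r) ≤ w (x - y) := by
  rw [← Commute.mul_geom_sum₂ (Commute.all x y), map_mul]
  have : w (∑ i ∈ Finset.range r, x ^ i * y ^ (r - 1 - i)) ≤ 1 := by
    apply sum_le w hna _ _ zero_le_one
    intro i _
    rw [map_mul, map_pow, map_pow]
    exact mul_le_one₀ (pow_le_one₀ (w.nonneg _) hx) (by positivity) (pow_le_one₀ (w.nonneg _) hy)
  have h2 := w.nonneg (x - y)
  nlinarith

include hna in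
lemma mono_le {u v : Fin 2 → L} (hu : nm w u ≤ 1) (hv : nm w v ≤ 1) {m s0 s1 t0 t1 : ℕ}
    (hs : s0 + s1 = m) (ht : t0 + t1 = m) :
    w (u 0 ^ s0 * u 1 ^ s1 * (v 0 ^ t0 * v 1 ^ t1) - v 0 ^ s0 * v 1 ^ s1 * (u 0 ^ t0 * u 1 ^ t1)) ≤
      w (br u v) := by
  have hu0 : w (u 0) ≤ 1 := (le_max_left _ _).trans hu
  have hu1 : w (u 1) ≤ 1 := (le_max_right _ _).trans hu
  have hv0 : w (v 0) ≤ 1 := (le_max_left _ _).trans hv
  have hv1 : w (v 1) ≤ 1 := (le_max_right _ _).trans hv
  have hmul : ∀ x y : L, w x ≤ 1 → w y ≤ 1 → w (x * y) ≤ 1 := by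
    intro x y hx hy
    rw [map_mul]; exact mul_le_one₀ hx (w.nonneg _) hy
  have hpow : ∀ (x : L) (k : ℕ), w x ≤ 1 → w (x ^ k) ≤ 1 := by
    intro x k hx
    rw [map_pow]; exact pow_le_one₀ (w.nonneg _) hx
  -- main step for `t0 ≤ s0`
  have main : ∀ (C : L) (r : ℕ), w C ≤ 1 →
      w (C * ((u 0 * v 1) ^ r - (u 1 * v 0) ^ r)) ≤ w (br u v) := by
    intro C r hC
    rw [map_mul]
    have h1 := pow_sub_le w hna (hmul _ _ hu0 hv1) (hmul _ _ hu1 hv0) r
    have h2 := w.nonneg ((u 0 * v 1) ^ r - (u 1 * v 0) ^ r)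
    have h3 : w (br u v) = w (u 0 * v 1 - u 1 * v 0) := rfl
    rw [h3]
    nlinarith [w.nonneg C]
  rcases le_total t0 s0 with h | h
  · obtain ⟨r, rfl⟩ := Nat.exists_eq_add_of_le h
    have ht1 : t1 = s1 + r := by omega
    subst ht1
    have e : u 0 ^ (t0 + r) * u 1 ^ s1 * (v 0 ^ t0 * v 1 ^ (s1 + r)) -
        v 0 ^ (t0 + r) * v 1 ^ s1 * (u 0 ^ t0 * u 1 ^ (s1 + r)) =
        ((u 0 * v 0) ^ t0 * (u 1 * v 1) ^ s1) * ((u 0 * v 1) ^ r - (u 1 * v 0) ^ r) := by
      ring
    rw [e]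
    exact main _ r (hmul _ _ (hpow _ _ (hmul _ _ hu0 hv0)) (hpow _ _ (hmul _ _ hu1 hv1)))
  · obtain ⟨r, rfl⟩ := Nat.exists_eq_add_of_le h
    have hs1 : s1 = t1 + r := by omega
    subst hs1
    have e : u 0 ^ s0 * u 1 ^ (t1 + r) * (v 0 ^ (s0 + r) * v 1 ^ t1) -
        v 0 ^ s0 * v 1 ^ (t1 + r) * (u 0 ^ (s0 + r) * u 1 ^ t1) =
        -(((u 0 * v 0) ^ s0 * (u 1 * v 1) ^ t1) * ((u 0 * v 1) ^ r - (u 1 * v 0) ^ r)) := by
      ring
    rw [e, AbsoluteValue.map_neg]
    exact main _ r (hmul _ _ (hpow _ _ (hmul _ _ hu0 hv0)) (hpow _ _ (hmul _ _ hu1 hv1)))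

/-- the map on vectors -/
noncomputable def Phi {R : Type*} [CommRing R] (F G : MvPolynomial (Fin 2) R) (v : Fin 2 → R) :
    Fin 2 → R :=
  ![eval v F, eval v G]

include hna in
lemma br_phi_le {F G : MvPolynomial (Fin 2) L} {m : ℕ} (hF : F.IsHomogeneous m)
    (hG : G.IsHomogeneous m) (hFi : ∀ s, w (F.coeff s) ≤ 1) (hGi : ∀ s, w (G.coeff s) ≤ 1)
    {u v : Fin 2 → L} (hu : nm w u ≤ 1) (hv : nm w v ≤ 1) :
    w (br (Phi F G u) (Phi F G v)) ≤ w (br u v) := by
  have hdeg : ∀ {H : MvPolynomial (Fin 2) L}, H.IsHomogeneous m → ∀ s ∈ H.support,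
      s 0 + s 1 = m := by
    intro H hH s hs
    have h1 := hH (mem_support_iff.mp hs)
    rw [← h1]
    simp [Finsupp.weight_apply, Finsupp.sum_fintype, Fin.sum_univ_two]
  have e : br (Phi F G u) (Phi F G v) = ∑ s ∈ F.support, ∑ t ∈ G.support,
      F.coeff s * G.coeff t * (u 0 ^ s 0 * u 1 ^ s 1 * (v 0 ^ t 0 * v 1 ^ t 1) -
        v 0 ^ s 0 * v 1 ^ s 1 * (u 0 ^ t 0 * u 1 ^ t 1)) := by
    have e1 : br (Phi F G u) (Phi F G v) = eval u F * eval v G - eval v F * eval u G := by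
      unfold br Phi
      simp; ring
    rw [e1, eval_eq', eval_eq', eval_eq', eval_eq', Finset.sum_mul_sum, Finset.sum_mul_sum,
      ← Finset.sum_sub_distrib]
    apply Finset.sum_congr rfl
    intro s _
    rw [← Finset.sum_sub_distrib]
    apply Finset.sum_congr rfl
    intro t _
    simp only [Fin.prod_univ_two]
    ring
  rw [e]
  apply sum_le w hna _ _ (w.nonneg _)
  intro s hs
  apply sum_le w hna _ _ (w.nonneg _)
  intro t ht
  rw [map_mul, map_mul]
  have h1 := mono_le w hna hu hv (hdeg hF s hs) (hdeg hG t ht)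
  have h2 : w (F.coeff s) * w (G.coeff t) ≤ 1 := mul_le_one₀ (hFi s) (w.nonneg _) (hGi t)
  have h3 := w.nonneg (u 0 ^ s 0 * u 1 ^ s 1 * (v 0 ^ t 0 * v 1 ^ t 1) -
        v 0 ^ s 0 * v 1 ^ s 1 * (u 0 ^ t 0 * u 1 ^ t 1))
  have h4 : 0 ≤ w (F.coeff s) * w (G.coeff t) := by positivity
  calc _ ≤ 1 * w (u 0 ^ s 0 * u 1 ^ s 1 * (v 0 ^ t 0 * v 1 ^ t 1) -
        v 0 ^ s 0 * v 1 ^ s 1 * (u 0 ^ t 0 * u 1 ^ t 1)) := mul_le_mul_of_nonneg_right h2 h3
    _ ≤ _ := by rw [one_mul]; exact h1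

lemma phi_smul {R : Type*} [CommRing R] {F G : MvPolynomial (Fin 2) R} {m : ℕ}
    (hF : F.IsHomogeneous m) (hG : G.IsHomogeneous m) (c : R) (v : Fin 2 → R) :
    Phi F G (c • v) = c ^ m • Phi F G v := by
  have key : ∀ {H : MvPolynomial (Fin 2) R}, H.IsHomogeneous m →
      eval (c • v) H = c ^ m * eval v H := by
    intro H hH
    rw [eval_eq', eval_eq', Finset.mul_sum]
    apply Finset.sum_congr rfl
    intro s hs
    have h1 := hH (mem_support_iff.mp hs)
    have h2 : s 0 + s 1 = m := by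
      rw [← h1]
      simp [Finsupp.weight_apply, Finsupp.sum_fintype, Fin.sum_univ_two]
    simp only [Fin.prod_univ_two, Pi.smul_apply, smul_eq_mul]
    rw [← h2]
    ring
  unfold Phi
  rw [key hF, key hG]
  ext i
  fin_cases i <;> simp

/-- The map given by integral forms that preserve the unit sphere does not increase distances. -/
theorem dL_phi_le (hna : ∀ x y : L, w (x + y) ≤ max (w x) (w y))
    {F G : MvPolynomial (Fin 2) L} {m : ℕ} (hF : F.IsHomogeneous m)
    (hG : G.IsHomogeneous m) (hFi : ∀ s, w (F.coeff s) ≤ 1) (hGi : ∀ s, w (G.coeff s) ≤ 1)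
    (hR : ∀ u : Fin 2 → L, nm w u = 1 → nm w (Phi F G u) = 1)
    {u v : Fin 2 → L} (hu : u ≠ 0) (hv : v ≠ 0) :
    dL w (Phi F G u) (Phi F G v) ≤ dL w u v := by
  have scale : ∀ {u : Fin 2 → L}, u ≠ 0 → ∃ c : L, c ≠ 0 ∧ nm w (c • u) = 1 := by
    intro u hu
    have h := nm_pos w hu
    rcases le_total (w (u 0)) (w (u 1)) with h1 | h1
    · have h2 : nm w u = w (u 1) := max_eq_right h1
      have h3 : u 1 ≠ 0 := by
        intro h0; rw [h2, h0, map_zero] at h; exact lt_irrefl _ h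
      refine ⟨(u 1)⁻¹, inv_ne_zero h3, ?_⟩
      rw [nm_smul, h2, map_inv₀]
      exact inv_mul_cancel₀ (w.ne_zero h3)
    · have h2 : nm w u = w (u 0) := max_eq_left h1
      have h3 : u 0 ≠ 0 := by
        intro h0; rw [h2, h0, map_zero] at h; exact lt_irrefl _ h
      refine ⟨(u 0)⁻¹, inv_ne_zero h3, ?_⟩
      rw [nm_smul, h2, map_inv₀]
      exact inv_mul_cancel₀ (w.ne_zero h3)
  obtain ⟨c, hc, hcu⟩ := scale hu
  obtain ⟨d, hd, hdv⟩ := scale hv
  rw [← dL_smul w hc hd u v, ← dL_smul w (pow_ne_zero m hc) (pow_ne_zero m hd) (Phi F G u),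
    ← phi_smul hF hG, ← phi_smul hF hG]
  unfold dL
  rw [hR _ hcu, hR _ hdv, hcu, hdv]
  simp only [mul_one, div_one]
  exact br_phi_le w hna hF hG hFi hGi hcu.le hdv.le

end Pool.Agent.H892.PGR
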