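import Mathlib

set_option autoImplicit false

/-!
# Nonexpanding maps for a family of `p`-adic distances on a set of rational points
-/

namespace Pool.Agent.H892.PGR

lemma eq_one_or (q : ℚ) (h : ∀ p : ℕ, p.Prime → padicNorm p q = 1) : q = 1 ∨ q = -1 := by
  have hq : q ≠ 0 := by
    rintro rfl
    have := h 2 Nat.prime_two
    simp at this
  have hv : ∀ p : ℕ, p.Prime → padicValRat p q = 0 := by
    intro p hp
    have := Fact.mk hp
    have h1 := h p hp
    rw [padicNorm.eq_zpow_of_nonzero hq] at h1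
    have hp1 : (1 : ℚ) < p := by exact_mod_cast hp.one_lt
    have h2 : (p : ℚ) ^ (-padicValRat p q) = (p : ℚ) ^ (0 : ℤ) := by rw [h1, zpow_zero]
    have h3 := zpow_right_injective₀ (by positivity) hp1.ne' h2
    omega
  have hden : q.den = 1 := by
    by_contra hne
    obtain ⟨p, hp, hpd⟩ := Nat.exists_prime_and_dvd hne
    have := Fact.mk hp
    have h1 := hv p hp
    have h2 : ¬ (p ∣ q.num.natAbs) := by
      intro h3
      have h4 := Nat.dvd_gcd h3 hpd
      rw [q.reduced.gcd_eq_one] at h4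
      exact hp.one_lt.ne' (Nat.dvd_one.mp h4)
    have h5 : padicValRat p q = (padicValInt p q.num : ℤ) - padicValNat p q.den := rfl
    have h6 : padicValInt p q.num = 0 := by
      unfold padicValInt
      exact padicValNat.eq_zero_of_not_dvd h2
    have h7 : 1 ≤ padicValNat p q.den := one_le_padicValNat_of_dvd q.den_nz hpd
    rw [h5, h6] at h1
    omega
  have hnum : q.num.natAbs = 1 := by
    by_contra hne
    obtain ⟨p, hp, hpd⟩ := Nat.exists_prime_and_dvd hne
    have := Fact.mk hp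
    have h1 := hv p hp
    have h5 : padicValRat p q = (padicValInt p q.num : ℤ) - padicValNat p q.den := rfl
    have h6 : padicValNat p q.den = 0 := by rw [hden]; simp
    have hn0 : q.num.natAbs ≠ 0 := by
      rw [Int.natAbs_ne_zero]
      exact Rat.num_ne_zero.mpr hq
    have h7 : 1 ≤ padicValInt p q.num := one_le_padicValNat_of_dvd hn0 hpd
    rw [h5, h6] at h1
    omega
  have hqn : q = q.num := by
    conv_lhs => rw [← Rat.num_div_den q]
    rw [hden]; simp
  rcases Int.natAbs_eq q.num with h1 | h1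
  · left; rw [hqn, h1, hnum]; simp
  · right; rw [hqn, h1, hnum]; simp

lemma eq_or_neg {a b : ℚ} (hb : b ≠ 0) (ha : a ≠ 0)
    (h : ∀ p : ℕ, p.Prime → padicNorm p a = padicNorm p b) : a = b ∨ a = -b := by
  have h1 : ∀ p : ℕ, p.Prime → padicNorm p (a / b) = 1 := by
    intro p hp
    have := Fact.mk hp
    rw [padicNorm.div, h p hp]
    have : padicNorm p b ≠ 0 := by
      intro h0
      exact hb (padicNorm.zero_of_padicNorm_eq_zero h0)
    field_simp
  rcases eq_one_or _ h1 with h2 | h2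
  · left
    field_simp at h2
    exact h2
  · right
    field_simp at h2
    linarith

/-- The set of rational points, with brackets and weights. -/
structure Sys (X : Type*) where
  c : X → X → ℚ
  c_zero : ∀ x y, c x y = 0 ↔ x = y
  c_symm : ∀ x y, c y x = - c x y
  pl : ∀ a b e g, c a b * c e g - c a e * c b g + c a g * c b e = 0
  N : ℕ → X → ℝ
  N_pos : ∀ p x, 0 < N p x
  ultra : ∀ p : ℕ, p.Prime → ∀ x y z,
    ((padicNorm p (c x z) : ℚ) : ℝ) / (N p x * N p z) ≤
      max (((padicNorm p (c x y) : ℚ) : ℝ) / (N p x * N p y))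
        (((padicNorm p (c y z) : ℚ) : ℝ) / (N p y * N p z))

variable {X : Type*} (S : Sys X)

/-- the `p`-adic distance -/
noncomputable def Sys.δ (p : ℕ) (x y : X) : ℝ :=
  ((padicNorm p (S.c x y) : ℚ) : ℝ) / (S.N p x * S.N p y)

lemma Sys.ultra' {p : ℕ} (hp : p.Prime) (x y z : X) :
    S.δ p x z ≤ max (S.δ p x y) (S.δ p y z) := S.ultra p hp x y z

lemma Sys.symm (p : ℕ) (x y : X) : S.δ p x y = S.δ p y x := by
  unfold Sys.δ
  rw [S.c_symm y x, padicNorm.neg, mul_comm (S.N p x)]

lemma Sys.nonneg (p : ℕ) (x y : X) : 0 ≤ S.δ p x y := by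
  unfold Sys.δ
  have h1 := S.N_pos p x
  have h2 := S.N_pos p y
  have h3 : (0 : ℝ) ≤ ((padicNorm p (S.c x y) : ℚ) : ℝ) := by exact_mod_cast padicNorm.nonneg _
  positivity

lemma Sys.self (p : ℕ) (x : X) : S.δ p x x = 0 := by
  unfold Sys.δ
  rw [(S.c_zero x x).mpr rfl]
  simp

lemma Sys.pos {p : ℕ} (hp : p.Prime) {x y : X} (h : x ≠ y) : 0 < S.δ p x y := by
  have := Fact.mk hp
  unfold Sys.δ
  have h1 := S.N_pos p x
  have h2 := S.N_pos p y
  have h3 : S.c x y ≠ 0 := fun h0 => h ((S.c_zero x y).mp h0)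
  have h4 : (0 : ℝ) < ((padicNorm p (S.c x y) : ℚ) : ℝ) := by
    have : padicNorm p (S.c x y) ≠ 0 := fun h0 => h3 (padicNorm.zero_of_padicNorm_eq_zero h0)
    exact_mod_cast lt_of_le_of_ne (padicNorm.nonneg _) (Ne.symm this)
  positivity

lemma Sys.norm_eq (p : ℕ) (x y : X) :
    ((padicNorm p (S.c x y) : ℚ) : ℝ) = S.δ p x y * (S.N p x * S.N p y) := by
  unfold Sys.δ
  have h1 := S.N_pos p x
  have h2 := S.N_pos p y
  field_simp

/-- `f` does not increase any of the distances -/
def Sys.NonExp (f : X → X) : Prop :=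
  ∀ p : ℕ, p.Prime → ∀ x y, S.δ p (f x) (f y) ≤ S.δ p x y

lemma Sys.NonExp.iterate {S : Sys X} {f : X → X} (hf : S.NonExp f) (n : ℕ) :
    S.NonExp (f^[n]) := by
  induction n with
  | zero => intro p _ x y; exact le_refl _
  | succ n ih =>
    intro p hp x y
    rw [Function.iterate_succ_apply', Function.iterate_succ_apply']
    exact (hf p hp _ _).trans (ih p hp x y)

/-- the Plücker relation with its `p`-adic absolute values -/
lemma Sys.four (x0 x1 x2 x3 : X) (h01 : x0 ≠ x1) (h02 : x0 ≠ x2) (h03 : x0 ≠ x3) (h12 : x1 ≠ x2)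
    (h13 : x1 ≠ x3) (h23 : x2 ≠ x3) :
    ∃ a b e : ℚ, a ≠ 0 ∧ b ≠ 0 ∧ e ≠ 0 ∧ a - b + e = 0 ∧ ∀ p : ℕ, p.Prime → ∃ W : ℝ, 0 < W ∧
      ((padicNorm p a : ℚ) : ℝ) = W * (S.δ p x0 x1 * S.δ p x2 x3) ∧
      ((padicNorm p b : ℚ) : ℝ) = W * (S.δ p x0 x2 * S.δ p x1 x3) ∧
      ((padicNorm p e : ℚ) : ℝ) = W * (S.δ p x0 x3 * S.δ p x1 x2) := by
  have hc : ∀ {x y : X}, x ≠ y → S.c x y ≠ 0 := fun h h0 => h ((S.c_zero _ _).mp h0)
  refine ⟨S.c x0 x1 * S.c x2 x3, S.c x0 x2 * S.c x1 x3, S.c x0 x3 * S.c x1 x2,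
    mul_ne_zero (hc h01) (hc h23), mul_ne_zero (hc h02) (hc h13), mul_ne_zero (hc h03) (hc h12),
    S.pl x0 x1 x2 x3, ?_⟩
  intro p hp
  have := Fact.mk hp
  have h0 := S.N_pos p x0
  have h1 := S.N_pos p x1
  have h2 := S.N_pos p x2
  have h3 := S.N_pos p x3
  refine ⟨S.N p x0 * S.N p x1 * S.N p x2 * S.N p x3, by positivity, ?_, ?_, ?_⟩ <;>
  · rw [padicNorm.mul]
    push_cast
    rw [S.norm_eq, S.norm_eq]
    ring

lemma norm_two (p : ℕ) (hp : p.Prime) (a : ℚ) :
    ((padicNorm p (2 * a) : ℚ) : ℝ) = ((padicNorm p 2 : ℚ) : ℝ) * ((padicNorm p a : ℚ) : ℝ) := by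
  have := Fact.mk hp
  rw [padicNorm.mul]; push_cast; ring

/-- If `|a| = |b|` everywhere then `|e| = |2| |a|`. -/
lemma l1 {a b e : ℚ} (ha : a ≠ 0) (hb : b ≠ 0) (he : e ≠ 0) (h : a - b + e = 0)
    (hab : ∀ p : ℕ, p.Prime → padicNorm p a = padicNorm p b) :
    ∀ p : ℕ, p.Prime → ((padicNorm p e : ℚ) : ℝ) =
      ((padicNorm p 2 : ℚ) : ℝ) * ((padicNorm p a : ℚ) : ℝ) := by
  intro p hp
  rcases eq_or_neg hb ha hab with h1 | h1
  · exfalso; apply he; rw [h1] at h; linarith
  · have : e = -(2 * a) := by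
      have : b = -a := by rw [h1]; ring
      rw [this] at h; linarith
    rw [this, padicNorm.neg]
    exact norm_two p hp a

/-- If `|a| = |e|` everywhere then `|b| = |2| |a|`. -/
lemma l2 {a b e : ℚ} (ha : a ≠ 0) (hb : b ≠ 0) (he : e ≠ 0) (h : a - b + e = 0)
    (hae : ∀ p : ℕ, p.Prime → padicNorm p a = padicNorm p e) :
    ∀ p : ℕ, p.Prime → ((padicNorm p b : ℚ) : ℝ) =
      ((padicNorm p 2 : ℚ) : ℝ) * ((padicNorm p a : ℚ) : ℝ) := by
  intro p hp
  rcases eq_or_neg he ha hae with h1 | h1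
  · have : b = 2 * a := by rw [← h1] at h; linarith
    rw [this]
    exact norm_two p hp a
  · exfalso; apply hb; rw [h1] at h; linarith

/-! ### Tails -/

theorem Sys.tail {f : X → X} (hf : S.NonExp f) (y : X) (m : ℕ)
    (hm : f (f^[m] y) = f^[m] y) : f (f^[7] y) = f^[7] y := by
  classical
  -- the least such `m`
  have hex : ∃ m, f (f^[m] y) = f^[m] y := ⟨m, hm⟩
  set k := Nat.find hex with hk
  have hfix : f (f^[k] y) = f^[k] y := Nat.find_spec hex
  have hmin : ∀ j < k, f (f^[j] y) ≠ f^[j] y := fun j hj => Nat.find_min hex hj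
  have hstay : ∀ i, f^[i] (f^[k] y) = f^[k] y := by
    intro i
    induction i with
    | zero => rfl
    | succ i ih => rw [Function.iterate_succ_apply', ih, hfix]
  by_cases h8 : k ≤ 7
  · have : f^[7] y = f^[k] y := by
      have h0 : 7 - k + k = 7 := by omega
      have h1 : f^[7] y = f^[7 - k] (f^[k] y) := by
        rw [← Function.iterate_add_apply, h0]
      rw [h1, hstay]
    rw [this, hfix]
  exfalso
  push Not at h8
  let P : ℕ → X := fun j => f^[k - j] y
  have hP0 : f (P 0) = P 0 := hfix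
  have hPit : ∀ i j, i + j ≤ k → f^[i] (P (i + j)) = P j := by
    intro i j hij
    simp only [P]
    rw [← Function.iterate_add_apply]
    congr 2; omega
  have hP0it : ∀ i, f^[i] (P 0) = P 0 := fun i => hstay i
  have hne0 : ∀ j, 0 < j → j ≤ k → P 0 ≠ P j := by
    intro j hj hjk h
    apply hmin (k - j) (by omega)
    have : f^[k - j] y = P 0 := h.symm
    rw [this]; exact hP0
  have hdist : ∀ i j, i < j → j ≤ k → P i ≠ P j := by
    intro i j hij hjk h
    have h1 : f^[i] (P i) = P 0 := by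
      have := hPit i 0 (by omega)
      simpa using this
    have h2 : f^[i] (P j) = P (j - i) := by
      have := hPit i (j - i) (by omega)
      rwa [show i + (j - i) = j by omega] at this
    exact hne0 (j - i) (by omega) (by omega) (by rw [← h1, ← h2, h])
  have hmono : ∀ p : ℕ, p.Prime → ∀ i j, i ≤ j → j ≤ k → S.δ p (P 0) (P i) ≤ S.δ p (P 0) (P j) := by
    intro p hp i j hij hjk
    have h1 := hf.iterate (j - i) p hp (P 0) (P j)
    rw [hP0it] at h1
    have h2 : f^[j - i] (P j) = P i := by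
      have := hPit (j - i) i (by omega)
      rwa [show j - i + i = j by omega] at this
    rwa [h2] at h1
  have hij : ∀ p : ℕ, p.Prime → ∀ i j, 2 * i ≤ j → j ≤ k →
      S.δ p (P i) (P j) = S.δ p (P 0) (P j) := by
    intro p hp i j hij hjk
    have hi := hmono p hp i j (by omega) hjk
    apply le_antisymm
    · refine (S.ultra' hp (P i) (P 0) (P j)).trans ?_
      rw [S.symm p (P i) (P 0)]
      exact max_le hi (le_refl _)
    · rcases lt_or_eq_of_le hi with h1 | h1
      · have h2 := S.ultra' hp (P 0) (P i) (P j)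
        rcases le_max_iff.mp h2 with h3 | h3
        · linarith
        · exact h3
      · rw [← h1]
        have h2 := hmono p hp i (j - i) (by omega) (by omega)
        have h3 := hf.iterate i p hp (P i) (P j)
        have h4 : f^[i] (P i) = P 0 := by
          have := hPit i 0 (by omega)
          simpa using this
        have h5 : f^[i] (P j) = P (j - i) := by
          have := hPit i (j - i) (by omega)
          rwa [show i + (j - i) = j by omega] at this
        rw [h4, h5] at h3
        linarith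
  have key : ∀ i j l, 0 < i → 2 * i ≤ j → 2 * j ≤ l → l ≤ k →
      S.δ 2 (P 0) (P i) = 1 / 2 * S.δ 2 (P 0) (P j) := by
    intro i j l hi hj hl hlk
    obtain ⟨a, b, e, ha, hb, he, hrel, hp⟩ := S.four (P 0) (P i) (P j) (P l)
      (hdist 0 i hi (by omega)) (hdist 0 j (by omega) (by omega)) (hdist 0 l (by omega) (by omega))
      (hdist i j (by omega) (by omega)) (hdist i l (by omega) (by omega))
      (hdist j l (by omega) (by omega))
    have hbe : ∀ p : ℕ, p.Prime → padicNorm p b = padicNorm p e := by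
      intro p hpr
      obtain ⟨W, hW, h1, h2, h3⟩ := hp p hpr
      rw [hij p hpr i l (by omega) (by omega)] at h2
      rw [hij p hpr i j (by omega) (by omega)] at h3
      have : ((padicNorm p b : ℚ) : ℝ) = ((padicNorm p e : ℚ) : ℝ) := by rw [h2, h3]; ring
      exact_mod_cast this
    have h2a : a = 2 * b := by
      rcases eq_or_neg he hb hbe with h1 | h1
      · exfalso; apply ha; rw [h1] at hrel; linarith
      · have : e = -b := by rw [h1]; ring
        rw [this] at hrel; linarith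
    obtain ⟨W, hW, h1, h2, h3⟩ := hp 2 Nat.prime_two
    rw [hij 2 Nat.prime_two j l (by omega) (by omega)] at h1
    rw [hij 2 Nat.prime_two i l (by omega) (by omega)] at h2
    have h4 := norm_two 2 Nat.prime_two b
    rw [← h2a, h1, h2] at h4
    have h5 : ((padicNorm 2 2 : ℚ) : ℝ) = 1 / 2 := by
      have : padicNorm 2 (2 : ℚ) = (2 : ℚ)⁻¹ := by
        have := Fact.mk Nat.prime_two
        exact_mod_cast padicNorm.padicNorm_p_of_prime (p := 2)
      rw [this]; norm_num
    rw [h5] at h4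
    have h6 : 0 < S.δ 2 (P 0) (P l) := S.pos Nat.prime_two (hdist 0 l (by omega) (by omega))
    have h7 : (W * S.δ 2 (P 0) (P l)) * S.δ 2 (P 0) (P i) =
        (W * S.δ 2 (P 0) (P l)) * (1 / 2 * S.δ 2 (P 0) (P j)) := by
      linarith
    exact mul_left_cancel₀ (by positivity) h7
  have k1 := key 1 2 4 (by norm_num) (by norm_num) (by norm_num) (by omega)
  have k2 := key 1 4 8 (by norm_num) (by norm_num) (by norm_num) (by omega)
  have k3 := key 2 4 8 (by norm_num) (by norm_num) (by norm_num) (by omega)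
  have h6 : 0 < S.δ 2 (P 0) (P 4) := S.pos Nat.prime_two (hdist 0 4 (by omega) (by omega))
  linarith

end Pool.Agent.H892.PGR
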