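import Mathlib
import Pool.Agent.H892.PGR.Abs

set_option autoImplicit false

namespace Pool.Agent.H892.PGR

open Function

variable {X : Type*} {S : Sys X}

/-- distance along the orbit -/
noncomputable def D (S : Sys X) (f : X → X) (x : X) (p k : ℕ) : ℝ := S.δ p x (f^[k] x)

lemma D_iter (f : X → X) (x : X) (p r k : ℕ) : D S (f^[r]) x p k = D S f x p (r * k) := by
  unfold D
  rw [← Function.iterate_mul]

lemma per_mul {f : X → X} {x : X} {n : ℕ} (hx : minimalPeriod f x = n) (i : ℕ) :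
    f^[n * i] x = x := by
  have h : IsPeriodicPt f n x := by rw [← hx]; exact isPeriodicPt_minimalPeriod f x
  exact (h.mul_const i)

lemma c1 {f : X → X} (hf : S.NonExp f) {x : X} {n : ℕ} (hx : minimalPeriod f x = n) (hn : 0 < n)
    {p : ℕ} (hp : p.Prime) (i k : ℕ) : S.δ p (f^[i] x) (f^[i + k] x) = D S f x p k := by
  apply le_antisymm
  · rw [Function.iterate_add_apply]
    exact hf.iterate i p hp _ _
  · have h1 := hf.iterate (n * i - i) p hp (f^[i] x) (f^[i + k] x)
    have hle : i ≤ n * i := Nat.le_mul_of_pos_left i hn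
    rw [← Function.iterate_add_apply, ← Function.iterate_add_apply] at h1
    have e1 : n * i - i + i = n * i := by omega
    have e2 : n * i - i + (i + k) = k + n * i := by omega
    rw [e1, e2, Function.iterate_add_apply f k, per_mul hx i] at h1
    exact h1

lemma c2 {f : X → X} (hf : S.NonExp f) {x : X} {n : ℕ} (hx : minimalPeriod f x = n) (hn : 0 < n)
    {p : ℕ} (hp : p.Prime) (m k : ℕ) : D S f x p (m * k) ≤ D S f x p k := by
  induction m with
  | zero =>
    have : D S f x p (0 * k) = 0 := by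
      unfold D; rw [zero_mul]; exact S.self p x
    rw [this]; exact S.nonneg p _ _
  | succ m ih =>
    have h1 := S.ultra' hp x (f^[m * k] x) (f^[m * k + k] x)
    rw [c1 hf hx hn hp (m * k) k] at h1
    rw [Nat.succ_mul]
    exact h1.trans (max_le ih (le_refl _))

lemma cop {f : X → X} (hf : S.NonExp f) {x : X} {n : ℕ} (hx : minimalPeriod f x = n) (hn : 1 < n)
    {p : ℕ} (hp : p.Prime) {k : ℕ} (hk : Nat.Coprime k n) : D S f x p k = D S f x p 1 := by
  apply le_antisymm
  · have := c2 hf hx (by omega) hp k 1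
    rwa [mul_one] at this
  · obtain ⟨m, _, hm⟩ := Nat.exists_mul_mod_eq_one_of_coprime hk hn
    have h1 := c2 hf hx (by omega) hp m k
    have h2 : D S f x p (m * k) = D S f x p 1 := by
      unfold D
      have h3 : f^[(m * k) % n] x = f^[m * k] x := by
        rw [← hx]; exact iterate_mod_minimalPeriod_eq
      rw [← h3, mul_comm m k, hm]
    rw [← h2]; exact h1

lemma ne_of_lt {f : X → X} {x : X} {n : ℕ} (hx : minimalPeriod f x = n) {i j : ℕ} (hij : i < j)
    (hj : j < n) : f^[i] x ≠ f^[j] x := by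
  intro h
  have := iterate_injOn_Iio_minimalPeriod (f := f) (x := x) (x₁ := i) (x₂ := j)
    (by rw [Set.mem_Iio, hx]; omega) (by rw [Set.mem_Iio, hx]; exact hj) h
  omega

lemma D_pos {f : X → X} {x : X} {n : ℕ} (hx : minimalPeriod f x = n) {p : ℕ} (hp : p.Prime)
    {k : ℕ} (hk : 0 < k) (hkn : k < n) : 0 < D S f x p k :=
  S.pos hp (ne_of_lt hx (i := 0) hk hkn)

lemma rel {f : X → X} (hf : S.NonExp f) {x : X} {n : ℕ} (hx : minimalPeriod f x = n) {k : ℕ}
    (hk : 2 ≤ k) (hkn : k + 2 ≤ n) :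
    ∃ a b e : ℚ, a ≠ 0 ∧ b ≠ 0 ∧ e ≠ 0 ∧ a - b + e = 0 ∧ ∀ p : ℕ, p.Prime → ∃ W : ℝ, 0 < W ∧
      ((padicNorm p a : ℚ) : ℝ) = W * (D S f x p 1) ^ 2 ∧
      ((padicNorm p b : ℚ) : ℝ) = W * (D S f x p k) ^ 2 ∧
      ((padicNorm p e : ℚ) : ℝ) = W * (D S f x p (k + 1) * D S f x p (k - 1)) := by
  obtain ⟨a, b, e, ha, hb, he, h, hp⟩ := S.four (f^[0] x) (f^[1] x) (f^[k] x) (f^[k + 1] x)
    (ne_of_lt hx (by omega) (by omega)) (ne_of_lt hx (by omega) (by omega))
    (ne_of_lt hx (by omega) (by omega)) (ne_of_lt hx (by omega) (by omega))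
    (ne_of_lt hx (by omega) (by omega)) (ne_of_lt hx (by omega) (by omega))
  refine ⟨a, b, e, ha, hb, he, h, fun p hpr => ?_⟩
  obtain ⟨W, hW, h1, h2, h3⟩ := hp p hpr
  have e1 := c1 hf hx (by omega) hpr 0 1
  have e2 := c1 hf hx (by omega) hpr k 1
  have e3 := c1 hf hx (by omega) hpr 0 k
  have e4 := c1 hf hx (by omega) hpr 1 k
  have e5 := c1 hf hx (by omega) hpr 0 (k + 1)
  have e6 := c1 hf hx (by omega) hpr 1 (k - 1)
  rw [zero_add] at e1 e3 e5
  rw [show 1 + k = k + 1 by omega] at e4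
  rw [show 1 + (k - 1) = k by omega] at e6
  rw [e1, e2] at h1
  rw [e3, e4] at h2
  rw [e5, e6] at h3
  exact ⟨W, hW, by rw [h1]; ring, by rw [h2]; ring, h3⟩

lemma L1 {f : X → X} (hf : S.NonExp f) {x : X} {n : ℕ} (hx : minimalPeriod f x = n) {k : ℕ}
    (hk : 2 ≤ k) (hkn : k + 2 ≤ n)
    (h : ∀ p : ℕ, p.Prime → D S f x p k = D S f x p 1) (p : ℕ) (hp : p.Prime) :
    D S f x p (k + 1) * D S f x p (k - 1) =
      ((padicNorm p 2 : ℚ) : ℝ) * (D S f x p 1) ^ 2 := by
  obtain ⟨a, b, e, ha, hb, he, hr, hW⟩ := rel hf hx hk hkn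
  have h1 := l1 ha hb he hr (by
    intro p hp
    obtain ⟨W, _, h1, h2, _⟩ := hW p hp
    rw [h p hp, ← h1] at h2
    exact_mod_cast h2.symm) p hp
  obtain ⟨W, hW0, h2, _, h3⟩ := hW p hp
  rw [h2, h3] at h1
  have h4 : W * (D S f x p (k + 1) * D S f x p (k - 1)) =
      W * (((padicNorm p 2 : ℚ) : ℝ) * (D S f x p 1) ^ 2) := by rw [h1]; ring
  exact mul_left_cancel₀ hW0.ne' h4

lemma L2 {f : X → X} (hf : S.NonExp f) {x : X} {n : ℕ} (hx : minimalPeriod f x = n) {k : ℕ}
    (hk : 2 ≤ k) (hkn : k + 2 ≤ n)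
    (h : ∀ p : ℕ, p.Prime → D S f x p (k + 1) * D S f x p (k - 1) = (D S f x p 1) ^ 2)
    (p : ℕ) (hp : p.Prime) :
    (D S f x p k) ^ 2 = ((padicNorm p 2 : ℚ) : ℝ) * (D S f x p 1) ^ 2 := by
  obtain ⟨a, b, e, ha, hb, he, hr, hW⟩ := rel hf hx hk hkn
  have h1 := l2 ha hb he hr (by
    intro p hp
    obtain ⟨W, _, h1, _, h2⟩ := hW p hp
    rw [h p hp, ← h1] at h2
    exact_mod_cast h2.symm) p hp
  obtain ⟨W, hW0, h2, h3, _⟩ := hW p hp
  rw [h2, h3] at h1
  have h4 : W * (D S f x p k) ^ 2 =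
      W * (((padicNorm p 2 : ℚ) : ℝ) * (D S f x p 1) ^ 2) := by rw [h1]; ring
  exact mul_left_cancel₀ hW0.ne' h4

lemma two_two : ((padicNorm 2 2 : ℚ) : ℝ) = 1 / 2 := by
  have : padicNorm 2 (2 : ℚ) = (2 : ℚ)⁻¹ := by
    have := Fact.mk Nat.prime_two
    exact_mod_cast padicNorm.padicNorm_p_of_prime (p := 2)
  rw [this]; norm_num

lemma two_pos' (p : ℕ) (hp : p.Prime) : (0 : ℝ) < ((padicNorm p 2 : ℚ) : ℝ) := by
  have := Fact.mk hp
  have h : padicNorm p (2 : ℚ) ≠ 0 := fun h0 => by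
    have := padicNorm.zero_of_padicNorm_eq_zero h0
    norm_num at this
  exact_mod_cast lt_of_le_of_ne (padicNorm.nonneg _) (Ne.symm h)

lemma no_prime {f : X → X} (hf : S.NonExp f) {x : X} {n : ℕ} (hx : minimalPeriod f x = n)
    (hn : n.Prime) (h5 : 5 ≤ n) : False := by
  have h2 : Nat.Coprime 2 n := (Nat.coprime_primes Nat.prime_two hn).mpr (by omega)
  have h3 : Nat.Coprime 3 n := (Nat.coprime_primes Nat.prime_three hn).mpr (by omega)
  have h := L1 hf hx (k := 2) (by norm_num) (by omega)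
    (fun p hp => cop hf hx (by omega) hp h2) 2 Nat.prime_two
  rw [two_two, cop hf hx (by omega) Nat.prime_two h3, show 2 - 1 = 1 by rfl] at h
  have hpos := D_pos (S := S) hx Nat.prime_two (k := 1) (by norm_num) (by omega)
  nlinarith

lemma four_cycle {f : X → X} (hf : S.NonExp f) {x : X} (hx : minimalPeriod f x = 4)
    (p : ℕ) (hp : p.Prime) :
    (D S f x p 2) ^ 2 = ((padicNorm p 2 : ℚ) : ℝ) * (D S f x p 1) ^ 2 := by
  refine L2 hf hx (k := 2) (by norm_num) (by norm_num) (fun p hp => ?_) p hp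
  rw [cop hf hx (by norm_num) hp (k := 2 + 1) (by norm_num)]
  ring

lemma mp_iter {f : X → X} {x : X} {n r : ℕ} (hx : minimalPeriod f x = r * n) (hr : 0 < r) : minimalPeriod (f^[r]) x = n := by
  rw [minimalPeriod_iterate_eq_div_gcd (by omega), hx, Nat.gcd_eq_right (Dvd.intro _ rfl)]
  exact Nat.mul_div_cancel_left n hr

lemma no_eight {f : X → X} (hf : S.NonExp f) {x : X} (hx : minimalPeriod f x = 8) : False := by
  have a1 := L2 hf hx (k := 4) (by norm_num) (by norm_num) (fun p hp => by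
    rw [cop hf hx (by norm_num) hp (k := 4 + 1) (by norm_num),
      cop hf hx (by norm_num) hp (k := 4 - 1) (by norm_num)]; ring) 2 Nat.prime_two
  have a2 := L2 hf hx (k := 2) (by norm_num) (by norm_num) (fun p hp => by
    rw [cop hf hx (by norm_num) hp (k := 2 + 1) (by norm_num)]
    norm_num; ring) 2 Nat.prime_two
  have a3 := four_cycle (hf.iterate 2) (mp_iter (r := 2) (n := 4) hx (by norm_num)) 2
    Nat.prime_two
  rw [D_iter, D_iter, two_two, show 2 * 2 = 4 from rfl, show 2 * 1 = 2 from rfl] at a3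
  rw [two_two] at a1 a2
  have hpos := D_pos (S := S) hx Nat.prime_two (k := 1) (by norm_num) (by omega)
  have : (0:ℝ) < (D S f x 2 1) ^ 2 := by positivity
  nlinarith

lemma no_nine {f : X → X} (hf : S.NonExp f) {x : X} (hx : minimalPeriod f x = 9) : False := by
  have d2 : ∀ p : ℕ, p.Prime → D S f x p 2 = D S f x p 1 := fun p hp =>
    cop hf hx (by norm_num) hp (k := 2) (by norm_num)
  have a1 := L1 hf hx (k := 2) (by norm_num) (by norm_num) d2 2 Nat.prime_two
  have a2 := L2 hf hx (k := 3) (by norm_num) (by norm_num) (fun p hp => by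
    rw [cop hf hx (by norm_num) hp (k := 3 + 1) (by norm_num),
      cop hf hx (by norm_num) hp (k := 3 - 1) (by norm_num)]; ring) 2 Nat.prime_two
  rw [two_two, show 2 + 1 = 3 from rfl, show 2 - 1 = 1 from rfl] at a1
  rw [two_two] at a2
  have hpos := D_pos (S := S) hx Nat.prime_two (k := 1) (by norm_num) (by omega)
  have a3 : D S f x 2 3 = 1 / 2 * D S f x 2 1 := by
    have : D S f x 2 1 * D S f x 2 3 = D S f x 2 1 * (1 / 2 * D S f x 2 1) := by linarith
    exact mul_left_cancel₀ hpos.ne' this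
  rw [a3] at a2
  have : (0:ℝ) < (D S f x 2 1) ^ 2 := by positivity
  nlinarith

lemma no_twelve {f : X → X} (hf : S.NonExp f) {x : X} (hx : minimalPeriod f x = 12) : False := by
  have d5 : ∀ p : ℕ, p.Prime → D S f x p 5 = D S f x p 1 := fun p hp =>
    cop hf hx (by norm_num) hp (k := 5) (by norm_num)
  have a1 := L1 hf hx (k := 5) (by norm_num) (by norm_num) d5
  have a2 := L2 hf hx (k := 6) (by norm_num) (by norm_num) (fun p hp => by
    rw [cop hf hx (by norm_num) hp (k := 6 + 1) (by norm_num),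
      cop hf hx (by norm_num) hp (k := 6 - 1) (by norm_num)]; ring)
  have a3 := four_cycle (hf.iterate 3) (mp_iter (r := 3) (n := 4) hx (by norm_num))
  have d3 : ∀ p : ℕ, p.Prime → D S f x p 3 = D S f x p 1 := by
    intro p hp
    have h3 := a3 p hp
    rw [D_iter, D_iter, show 3 * 2 = 6 from rfl, show 3 * 1 = 3 from rfl, a2 p hp] at h3
    have h4 := mul_left_cancel₀ (two_pos' p hp).ne' h3
    have hp1 := D_pos (S := S) hx hp (k := 1) (by norm_num) (by omega)
    have hp3 := D_pos (S := S) hx hp (k := 3) (by norm_num) (by omega)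
    nlinarith [sq_nonneg (D S f x p 3 - D S f x p 1)]
  have a4 := L2 hf hx (k := 2) (by norm_num) (by norm_num) (fun p hp => by
    rw [show 2 + 1 = 3 from rfl, d3 p hp, show 2 - 1 = 1 from rfl]; ring)
  have d4 : ∀ p : ℕ, p.Prime → D S f x p 4 = D S f x p 2 := by
    intro p hp
    have h1 := a1 p hp
    have h2 := a2 p hp
    have h4 := a4 p hp
    rw [show 5 + 1 = 6 from rfl, show 5 - 1 = 4 from rfl] at h1
    set t := ((padicNorm p 2 : ℚ) : ℝ) with ht
    have ht0 : 0 < t := two_pos' p hp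
    have hp1 := D_pos (S := S) hx hp (k := 1) (by norm_num) (by omega)
    have hp2 := D_pos (S := S) hx hp (k := 2) (by norm_num) (by omega)
    have hp4 := D_pos (S := S) hx hp (k := 4) (by norm_num) (by omega)
    have e1 : (D S f x p 6) ^ 2 * (D S f x p 4) ^ 2 = t ^ 2 * (D S f x p 1) ^ 4 := by
      rw [← mul_pow, h1]; ring
    rw [h2] at e1
    have e2 : (t * D S f x p 1 ^ 2) * (D S f x p 4) ^ 2 =
        (t * D S f x p 1 ^ 2) * (D S f x p 2) ^ 2 := by
      rw [e1, h4]; ring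
    have e3 := mul_left_cancel₀ (by positivity) e2
    nlinarith
  have d6 : ∀ p : ℕ, p.Prime → D S f x p 6 = D S f x p 2 := by
    intro p hp
    have h2 := a2 p hp
    have h4 := a4 p hp
    have hp6 := D_pos (S := S) hx hp (k := 6) (by norm_num) (by omega)
    have hp2 := D_pos (S := S) hx hp (k := 2) (by norm_num) (by omega)
    rw [← h4] at h2
    nlinarith
  have a5 := L1 (hf.iterate 2) (mp_iter (r := 2) (n := 6) hx (by norm_num)) (k := 2) (by norm_num)
    (by norm_num) (fun p hp => by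
      rw [D_iter, D_iter, show 2 * 2 = 4 from rfl, show 2 * 1 = 2 from rfl, d4 p hp]) 2
    Nat.prime_two
  rw [D_iter, D_iter, two_two, show 2 * (2 + 1) = 6 from rfl, show 2 * (2 - 1) = 2 from rfl,
    d6 2 Nat.prime_two] at a5
  have hp2 := D_pos (S := S) hx Nat.prime_two (k := 2) (by norm_num) (by omega)
  nlinarith

/-- The possible cycle lengths. -/
theorem cycles {f : X → X} (hf : S.NonExp f) {x : X} {n : ℕ} (hx : minimalPeriod f x = n)
    (hn : 0 < n) : n = 1 ∨ n = 2 ∨ n = 3 ∨ n = 4 ∨ n = 6 := by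
  have hdiv : ∀ m, 0 < m → m ∣ n → ∃ r, minimalPeriod (f^[r]) x = m := by
    intro m hm hd
    obtain ⟨r, hr⟩ := hd
    refine ⟨r, mp_iter (r := r) (n := m) (by rw [hx, hr, mul_comm]) ?_⟩
    rcases Nat.eq_zero_or_pos r with h | h
    · rw [h] at hr; omega
    · exact h
  have h8 : ¬ 8 ∣ n := fun h => by
    obtain ⟨r, hr⟩ := hdiv 8 (by norm_num) h
    exact no_eight (hf.iterate r) hr
  have h9 : ¬ 9 ∣ n := fun h => by
    obtain ⟨r, hr⟩ := hdiv 9 (by norm_num) h
    exact no_nine (hf.iterate r) hr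
  have h12 : ¬ 12 ∣ n := fun h => by
    obtain ⟨r, hr⟩ := hdiv 12 (by norm_num) h
    exact no_twelve (hf.iterate r) hr
  have hp5 : ∀ l : ℕ, l.Prime → 5 ≤ l → ¬ l ∣ n := fun l hl h5 h => by
    obtain ⟨r, hr⟩ := hdiv l hl.pos h
    exact no_prime (hf.iterate r) hr hl h5
  obtain ⟨a, m, hm, hnm⟩ := Nat.exists_eq_pow_mul_and_not_dvd hn.ne' 2 (by norm_num)
  have hm0 : m ≠ 0 := by rintro rfl; simp at hm
  obtain ⟨b, m', hm', hnm'⟩ := Nat.exists_eq_pow_mul_and_not_dvd hm0 3 (by norm_num)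
  have hm1 : m' = 1 := by
    by_contra hne
    obtain ⟨l, hl, hld⟩ := Nat.exists_prime_and_dvd hne
    have hln : l ∣ n := by rw [hnm, hnm']; exact (hld.mul_left _).mul_left _
    have hl2 : l ≠ 2 := by
      rintro rfl
      exact hm (by rw [hnm']; exact hld.mul_left _)
    have hl3 : l ≠ 3 := by
      rintro rfl
      exact hm' hld
    have hl2' := hl.two_le
    have hl4 : l ≠ 4 := by rintro rfl; norm_num at hl
    exact hp5 l hl (by omega) hln
  have ha : a < 3 := by
    by_contra h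
    push Not at h
    exact h8 (by rw [hnm]; exact ((pow_dvd_pow 2 h).mul_right m))
  have hb : b < 2 := by
    by_contra h
    push Not at h
    exact h9 (by rw [hnm, hnm']; exact ((pow_dvd_pow 3 h).mul_right m').mul_left _)
  rw [hm1, mul_one] at hnm'
  rw [hnm'] at hnm
  interval_cases a <;> interval_cases b <;> simp at hnm <;> omega

end Pool.Agent.H892.PGR
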