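import Mathlib
import Pool.Agent.H892.PGR.Glob

set_option autoImplicit false

/-!
# Counting the solutions of `f^m = f^n` on the projective line
-/

namespace Pool.Agent.H892.PGR

open MvPolynomial

/-- the map on vectors over an extension -/
noncomputable def PhiK {K : Type*} [Field K] [Algebra ℚ K] (F G : MvPolynomial (Fin 2) ℚ)
    (v : Fin 2 → K) : Fin 2 → K := ![aeval v F, aeval v G]

/-- forms of the iterates -/
noncomputable def it (F G : MvPolynomial (Fin 2) ℚ) :
    ℕ → MvPolynomial (Fin 2) ℚ × MvPolynomial (Fin 2) ℚ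
  | 0 => (X 0, X 1)
  | n + 1 => (aeval ![(it F G n).1, (it F G n).2] F, aeval ![(it F G n).1, (it F G n).2] G)

lemma it_hom {F G : MvPolynomial (Fin 2) ℚ} {d : ℕ} (hF : F.IsHomogeneous d)
    (hG : G.IsHomogeneous d) (n : ℕ) :
    (it F G n).1.IsHomogeneous (d ^ n) ∧ (it F G n).2.IsHomogeneous (d ^ n) := by
  induction n with
  | zero => exact ⟨isHomogeneous_X _ _, isHomogeneous_X _ _⟩
  | succ n ih =>
    have hg : ∀ i : Fin 2, (![(it F G n).1, (it F G n).2] i).IsHomogeneous (d ^ n) := by
      intro i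
      fin_cases i
      · exact ih.1
      · exact ih.2
    rw [pow_succ]
    exact ⟨hF.aeval _ hg, hG.aeval _ hg⟩

lemma it_eval {K : Type*} [Field K] [Algebra ℚ K] (F G : MvPolynomial (Fin 2) ℚ) (n : ℕ)
    (v : Fin 2 → K) :
    ![aeval v (it F G n).1, aeval v (it F G n).2] = (PhiK F G)^[n] v := by
  induction n with
  | zero =>
    ext i
    fin_cases i <;> simp [it]
  | succ n ih =>
    rw [Function.iterate_succ_apply', ← ih]
    have key : ∀ H : MvPolynomial (Fin 2) ℚ,
        aeval v (aeval ![(it F G n).1, (it F G n).2] H) =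
          aeval ![aeval v (it F G n).1, aeval v (it F G n).2] H := by
      intro H
      rw [comp_aeval_apply]
      congr 2
      ext i
      fin_cases i <;> rfl
    unfold PhiK
    simp only [it]
    rw [key, key]

lemma aev (v : Fin 2 → ℚ) (H : MvPolynomial (Fin 2) ℚ) : aeval v H = eval v H := by
  rw [← coe_aeval_eq_eval]; rfl

lemma phiK_rat (F G : MvPolynomial (Fin 2) ℚ) : (PhiK F G : (Fin 2 → ℚ) → _) = Phi F G := by
  funext v
  unfold PhiK Phi
  rw [aev, aev]

/-- dehomogenisation -/
noncomputable def uni (H : MvPolynomial (Fin 2) ℚ) : Polynomial ℚ :=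
  aeval ![Polynomial.X, 1] H

lemma uni_aeval {K : Type*} [Field K] [Algebra ℚ K] (H : MvPolynomial (Fin 2) ℚ) (a : K) :
    Polynomial.aeval a (uni H) = aeval ![a, 1] H := by
  unfold uni
  rw [comp_aeval_apply]
  congr 2
  ext i
  fin_cases i <;> simp

lemma hdeg {H : MvPolynomial (Fin 2) ℚ} {e : ℕ} (hH : H.IsHomogeneous e) :
    ∀ s ∈ H.support, s 0 + s 1 = e := by
  intro s hs
  have h1 := hH (mem_support_iff.mp hs)
  rw [← h1]
  simp [Finsupp.weight_apply, Finsupp.sum_fintype, Fin.sum_univ_two]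

lemma uni_eq (H : MvPolynomial (Fin 2) ℚ) :
    uni H = ∑ s ∈ H.support, Polynomial.C (H.coeff s) * Polynomial.X ^ (s 0) := by
  unfold uni
  rw [aeval_def, eval₂_eq']
  apply Finset.sum_congr rfl
  intro s _
  simp [Fin.prod_univ_two]

lemma uni_deg {H : MvPolynomial (Fin 2) ℚ} {e : ℕ} (hH : H.IsHomogeneous e) :
    (uni H).natDegree ≤ e := by
  rw [uni_eq]
  apply Polynomial.natDegree_sum_le_of_forall_le
  intro s hs
  refine (Polynomial.natDegree_C_mul_X_pow_le _ _).trans ?_
  have := hdeg hH s hs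
  omega

lemma uni_coeff {H : MvPolynomial (Fin 2) ℚ} {e : ℕ} (hH : H.IsHomogeneous e) :
    (uni H).coeff e = eval ![1, 0] H := by
  rw [uni_eq, Polynomial.finsetSum_coeff, eval_eq']
  apply Finset.sum_congr rfl
  intro s hs
  have h := hdeg hH s hs
  rw [Polynomial.coeff_C_mul, Polynomial.coeff_X_pow]
  simp only [Fin.prod_univ_two, Matrix.cons_val_zero, Matrix.cons_val_one, one_pow, one_mul]
  by_cases h1 : s 1 = 0
  · have : e = s 0 := by omega
    rw [if_pos this, h1, pow_zero]
  · have : e ≠ s 0 := by omega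
    rw [if_neg this, zero_pow h1]

section main

variable {F G : MvPolynomial (Fin 2) ℚ} {d : ℕ}

lemma nz_iter {K : Type*} [Field K] [Algebra ℚ K]
    (h : ∀ x : Fin 2 → K, x ≠ 0 → ¬ (aeval x F = 0 ∧ aeval x G = 0)) (n : ℕ) (x : Fin 2 → K)
    (hx : x ≠ 0) : (PhiK F G)^[n] x ≠ 0 := by
  induction n with
  | zero => exact hx
  | succ n ih =>
    rw [Function.iterate_succ_apply']
    intro h0
    apply h _ ih
    exact ⟨congrFun h0 0, congrFun h0 1⟩

lemma nz_rat (h : ∀ x : Fin 2 → AlgebraicClosure ℚ, x ≠ 0 → ¬ (aeval x F = 0 ∧ aeval x G = 0)) :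
    ∀ x : Fin 2 → ℚ, x ≠ 0 → ¬ (aeval x F = 0 ∧ aeval x G = 0) := by
  intro x hx ⟨h1, h2⟩
  let y : Fin 2 → AlgebraicClosure ℚ := fun i => algebraMap ℚ _ (x i)
  have hy : y ≠ 0 := by
    intro h0
    apply hx
    ext i
    have : algebraMap ℚ (AlgebraicClosure ℚ) (x i) = 0 := congrFun h0 i
    exact (map_eq_zero _).mp this
  have key : ∀ H : MvPolynomial (Fin 2) ℚ, aeval y H = algebraMap ℚ (AlgebraicClosure ℚ)
      (aeval x H) := by
    intro H
    exact aeval_algebraMap_apply (AlgebraicClosure ℚ) x H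
  apply h y hy
  rw [key, key, h1, h2, map_zero]
  exact ⟨rfl, rfl⟩

lemma cop_uni (h : ∀ x : Fin 2 → AlgebraicClosure ℚ, x ≠ 0 →
    ¬ (aeval x F = 0 ∧ aeval x G = 0)) (n : ℕ) :
    IsCoprime (uni (it F G n).1) (uni (it F G n).2) := by
  rw [Polynomial.isCoprime_iff_aeval_ne_zero_of_isAlgClosed ℚ (AlgebraicClosure ℚ)]
  intro a
  rw [uni_aeval, uni_aeval]
  by_contra hcon
  push Not at hcon
  have h1 : (![a, 1] : Fin 2 → AlgebraicClosure ℚ) ≠ 0 := by
    intro h0
    have := congrFun h0 1
    simp at this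
  apply nz_iter h n _ h1
  rw [← it_eval, hcon.1, hcon.2]
  ext i
  fin_cases i <;> rfl

lemma cross_ne (hd : 2 ≤ d) (hF : F.IsHomogeneous d) (hG : G.IsHomogeneous d)
    (h : ∀ x : Fin 2 → AlgebraicClosure ℚ, x ≠ 0 → ¬ (aeval x F = 0 ∧ aeval x G = 0))
    {m n : ℕ} (hnm : n < m) :
    uni (it F G m).1 * uni (it F G n).2 - uni (it F G m).2 * uni (it F G n).1 ≠ 0 := by
  intro h0
  rw [sub_eq_zero] at h0
  set p := uni (it F G m).1
  set q := uni (it F G m).2
  set r := uni (it F G n).1
  set s := uni (it F G n).2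
  have hpq : IsCoprime p q := cop_uni h m
  have hlt : d ^ n < d ^ m := Nat.pow_lt_pow_right (by omega) hnm
  have hrs := it_hom hF hG n
  have hpqh := it_hom hF hG m
  have hp : p ∣ r := hpq.dvd_of_dvd_mul_left (Dvd.intro _ h0)
  have hq : q ∣ s := hpq.symm.dvd_of_dvd_mul_left (Dvd.intro _ h0.symm)
  have hcrs : IsCoprime r s := cop_uni h n
  have hdp : p.natDegree < d ^ m := by
    by_cases hr : r = 0
    · -- then `s` is a unit and `p = 0`
      rw [hr] at h0
      have hs : s ≠ 0 := by
        intro hs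
        rw [hr, hs] at hcrs
        exact not_isCoprime_zero_zero hcrs
      have : p = 0 := by
        rw [mul_zero] at h0
        exact (mul_eq_zero.mp h0).resolve_right hs
      rw [this, Polynomial.natDegree_zero]
      exact Nat.pos_of_ne_zero (by positivity)
    · exact lt_of_le_of_lt ((Polynomial.natDegree_le_of_dvd hp hr).trans (uni_deg hrs.1)) hlt
  have hdq : q.natDegree < d ^ m := by
    by_cases hs : s = 0
    · rw [hs] at h0
      have hr : r ≠ 0 := by
        intro hr
        rw [hr, hs] at hcrs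
        exact not_isCoprime_zero_zero hcrs
      have : q = 0 := by
        rw [mul_zero] at h0
        exact (mul_eq_zero.mp h0.symm).resolve_right hr
      rw [this, Polynomial.natDegree_zero]
      exact Nat.pos_of_ne_zero (by positivity)
    · exact lt_of_le_of_lt ((Polynomial.natDegree_le_of_dvd hq hs).trans (uni_deg hrs.2)) hlt
  have e1 : eval ![1, 0] (it F G m).1 = 0 := by
    rw [← uni_coeff hpqh.1]
    exact Polynomial.coeff_eq_zero_of_natDegree_lt hdp
  have e2 : eval ![1, 0] (it F G m).2 = 0 := by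
    rw [← uni_coeff hpqh.2]
    exact Polynomial.coeff_eq_zero_of_natDegree_lt hdq
  have h1 : (![1, 0] : Fin 2 → ℚ) ≠ 0 := by
    intro h0
    have := congrFun h0 0
    simp at this
  apply nz_iter (nz_rat h) m _ h1
  rw [← it_eval, aev, aev, e1, e2]
  ext i
  fin_cases i <;> rfl

lemma hom_scale {H : MvPolynomial (Fin 2) ℚ} {e : ℕ} (hH : H.IsHomogeneous e) {v : Fin 2 → ℚ}
    (hv : v 1 ≠ 0) : eval v H = v 1 ^ e * (uni H).eval (v 0 / v 1) := by
  rw [uni_eq, Polynomial.eval_finsetSum, eval_eq', Finset.mul_sum]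
  apply Finset.sum_congr rfl
  intro s hs
  have h := hdeg hH s hs
  simp only [Fin.prod_univ_two, Polynomial.eval_mul, Polynomial.eval_C, Polynomial.eval_pow,
    Polynomial.eval_X]
  rw [← h, pow_add, div_pow]
  field_simp

/-- number of solutions of `f^m = f^n` -/
theorem count (hd : 2 ≤ d) (hF : F.IsHomogeneous d) (hG : G.IsHomogeneous d)
    (h : ∀ x : Fin 2 → AlgebraicClosure ℚ, x ≠ 0 → ¬ (aeval x F = 0 ∧ aeval x G = 0))
    {m n : ℕ} (hnm : n < m) (T : Finset PP)
    (hT : ∀ x ∈ T, br ((Phi F G)^[m] x.rep) ((Phi F G)^[n] x.rep) = 0) :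
    T.card ≤ d ^ m + d ^ n + 1 := by
  classical
  set P := uni (it F G m).1 * uni (it F G n).2 - uni (it F G m).2 * uni (it F G n).1 with hP
  have hP0 : P ≠ 0 := cross_ne hd hF hG h hnm
  have hPd : P.natDegree ≤ d ^ m + d ^ n := by
    have hm := it_hom hF hG m
    have hn := it_hom hF hG n
    refine (Polynomial.natDegree_sub_le _ _).trans (max_le ?_ ?_)
    · exact (Polynomial.natDegree_mul_le).trans (Nat.add_le_add (uni_deg hm.1) (uni_deg hn.2))
    · exact (Polynomial.natDegree_mul_le).trans (Nat.add_le_add (uni_deg hm.2) (uni_deg hn.1))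
  let τ : PP → Option ℚ := fun x => if x.rep 1 = 0 then none else some (x.rep 0 / x.rep 1)
  have hτ : Function.Injective τ := by
    intro x y hxy
    have hb : br x.rep y.rep = 0 := by
      unfold br
      simp only [τ] at hxy
      by_cases h1 : x.rep 1 = 0
      · by_cases h2 : y.rep 1 = 0
        · rw [h1, h2]; ring
        · rw [if_pos h1, if_neg h2] at hxy
          exact absurd hxy (by simp)
      · by_cases h2 : y.rep 1 = 0
        · rw [if_neg h1, if_pos h2] at hxy
          exact absurd hxy (by simp)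
        · rw [if_neg h1, if_neg h2] at hxy
          have := Option.some.inj hxy
          field_simp at this
          linarith
    have := (br_zero_iff x.rep_nonzero y.rep_nonzero).mp hb
    rwa [Projectivization.mk_rep, Projectivization.mk_rep] at this
  have hsub : T.image τ ⊆ insert none (P.roots.toFinset.image some) := by
    intro o ho
    obtain ⟨x, hx, rfl⟩ := Finset.mem_image.mp ho
    by_cases h1 : x.rep 1 = 0
    · have : τ x = none := if_pos h1
      rw [this]; exact Finset.mem_insert_self _ _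
    · have : τ x = some (x.rep 0 / x.rep 1) := if_neg h1
      rw [this]
      apply Finset.mem_insert_of_mem
      apply Finset.mem_image_of_mem
      rw [Multiset.mem_toFinset, Polynomial.mem_roots hP0, Polynomial.IsRoot.def]
      have hb := hT x hx
      have hm := it_hom hF hG m
      have hn := it_hom hF hG n
      rw [← phiK_rat, ← it_eval, ← it_eval, aev, aev, aev, aev] at hb
      unfold br at hb
      simp only [Matrix.cons_val_zero, Matrix.cons_val_one] at hb
      rw [hom_scale hm.1 h1, hom_scale hm.2 h1, hom_scale hn.1 h1, hom_scale hn.2 h1] at hb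
      rw [hP, Polynomial.eval_sub, Polynomial.eval_mul, Polynomial.eval_mul]
      have h2 : x.rep 1 ^ (d ^ m) * x.rep 1 ^ (d ^ n) ≠ 0 :=
        mul_ne_zero (pow_ne_zero _ h1) (pow_ne_zero _ h1)
      apply mul_left_cancel₀ h2
      rw [mul_zero, ← hb]
      ring
  calc T.card = (T.image τ).card := (Finset.card_image_of_injective T hτ).symm
    _ ≤ (insert none (P.roots.toFinset.image some)).card := Finset.card_le_card hsub
    _ ≤ (P.roots.toFinset.image some).card + 1 := Finset.card_insert_le _ _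
    _ ≤ P.roots.toFinset.card + 1 := Nat.add_le_add_right Finset.card_image_le 1
    _ ≤ Multiset.card P.roots + 1 := Nat.add_le_add_right (Multiset.toFinset_card_le _) 1
    _ ≤ P.natDegree + 1 := Nat.add_le_add_right (Polynomial.card_roots' P) 1
    _ ≤ d ^ m + d ^ n + 1 := Nat.add_le_add_right hPd 1

end main

end Pool.Agent.H892.PGR
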